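import Pool.Agent.H802R2.AC12

set_option autoImplicit false

open Complex Metric Set Filter Topology

namespace Pool.Agent.Results.MP_1f2de8_an.SharpCoefficientBounds

/-- The class `M(α)` of alpha-convex (Mocanu) functions on the open unit disc: `f` is analytic and
univalent, `f 0 = 0`, `f' 0 = 1` and `Re [α (1 + z f''/f') + (1-α) z f'/f] > 0`. At `z = 0` the
expression in brackets has the removable value `1`, so the inequality is recorded for `z ≠ 0`. -/
def AlphaConvex (α : ℝ) : Set (ℂ → ℂ) :=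
  {f | DifferentiableOn ℂ f (ball (0:ℂ) 1) ∧ InjOn f (ball (0:ℂ) 1) ∧ f 0 = 0 ∧ deriv f 0 = 1 ∧
    ∀ z ∈ ball (0:ℂ) 1, z ≠ 0 →
      0 < ((α:ℂ) * (1 + z * deriv (deriv f) z / deriv f z) +
        (1 - (α:ℂ)) * (z * deriv f z / f z)).re}

/-- The `n`-th Taylor coefficient `a_n` of `f` at the origin. -/
noncomputable def coeff (n : ℕ) (f : ℂ → ℂ) : ℂ := iteratedDeriv n f 0 / (n.factorial : ℂ)

/-- `b_k = (1/(1+αk)) ∏_{j<k} (2/α+j)/(j+1)`, the coefficients of
`(1/α) ∫₀¹ t^(1/α-1) (1-tz)^(-2/α) dt`. -/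
noncomputable def b (α : ℝ) (k : ℕ) : ℝ :=
  (1 / (1 + α * k)) * ∏ j ∈ Finset.range k, (2 / α + j) / (j + 1)

/-- `a α n` is the coefficient of `z^n` in `(∑ b_k z^k)^α`, given by the recursion `a_0 = 1`,
`n a_n = ∑_{k=1}^{n} (αk - (n-k)) b_k a_{n-k}`. -/
noncomputable def a (α : ℝ) : ℕ → ℝ
  | 0 => 1
  | (n + 1) => (∑ k : Fin (n + 1), (α * ((k:ℝ) + 1) - ((n:ℝ) - k)) * b α (k + 1) * a α (n - k)) /
      ((n:ℝ) + 1)
  decreasing_by omega

theorem a_eq (α : ℝ) (n : ℕ) : a α n = Pool.Agent.H802R2.AC.mA α n := by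
  induction n using Nat.strong_induction_on with
  | _ n ih =>
    cases n with
    | zero => rw [a, Pool.Agent.H802R2.AC.mA]
    | succ n =>
      rw [a, Pool.Agent.H802R2.AC.mA]
      congr 1
      refine Finset.sum_congr rfl fun k _ => ?_
      rw [ih (n - k) (by omega)]
      rfl

open Pool.Agent.H802R2.AC in
/-- **Sharp coefficient bounds for alpha-convex functions.** For `0 < α < 1` and every `n ≥ 1` the
supremum `A_n(α)` of `|a_n|` over `M(α)` is attained and equals `a α (n-1)`; one function, the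
normalised `α`-th power `f₀ = z (∑ b_k z^k)^α`, is extremal for all `n` at once. -/
theorem result (α : ℝ) (hα0 : 0 < α) (hα1 : α < 1) :
    (∀ n : ℕ, 1 ≤ n → IsGreatest {x : ℝ | ∃ f ∈ AlphaConvex α, x = ‖coeff n f‖} (a α (n - 1))) ∧
    ∃ L : ℂ → ℂ, DifferentiableOn ℂ L (ball (0:ℂ) 1) ∧ L 0 = 0 ∧
      (∀ z ∈ ball (0:ℂ) 1, HasSum (fun k : ℕ => (b α k : ℂ) * z ^ k) (Complex.exp (L z))) ∧
      (fun z => z * Complex.exp (α * L z)) ∈ AlphaConvex α ∧
      ∀ n : ℕ, 1 ≤ n → coeff n (fun z => z * Complex.exp (α * L z)) = (a α (n - 1) : ℂ) := by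
  have hβ : 0 < α⁻¹ := inv_pos.mpr hα0
  have hα : (α:ℂ) ≠ 0 := by exact_mod_cast hα0.ne'
  obtain ⟨q0, h0⟩ := exists_q0 hβ
  obtain ⟨G, hG, hG0, hGd, hmem, hco⟩ := extremal hα0 hα1 h0
  have hX := coeff_X hα0 h0 hG hG0 hGd
  have hY := coeff_Y hα0 h0 hG hG0 hGd
  have hXA : An (fun z => Complex.exp (G z)) := hG.cexp
  have hc : ∀ n : ℕ, tc (n + 1) (fun z => z * Complex.exp (G z)) = (a α n : ℂ) := by
    intro n
    rw [tc_zmul_succ hXA, hX, a_eq]
  have hapos : ∀ n : ℕ, ((n:ℝ) + 1) * a α n =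
      ∑ j ∈ Finset.range (n + 1), (tc j (pw α q0)).re * ((n:ℝ) - j + 1) := by
    intro n
    have h1 := hco n
    rw [hc] at h1
    exact_mod_cast h1
  have hnn : ∀ n : ℕ, 0 ≤ a α n := by
    intro n
    have h1 := hapos n
    have h2 : 0 ≤ ∑ j ∈ Finset.range (n + 1), (tc j (pw α q0)).re * ((n:ℝ) - j + 1) := by
      refine Finset.sum_nonneg fun j hj => ?_
      have hj' : (j:ℝ) ≤ n := by
        exact_mod_cast Nat.lt_succ_iff.mp (Finset.mem_range.mp hj)
      exact mul_nonneg (pw_NN hα0 hα1 h0 j).2 (by linarith)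
    rw [← h1] at h2
    exact (mul_nonneg_iff_of_pos_left (by positivity)).mp h2
  refine ⟨?_, ?_⟩
  · intro n hn
    obtain ⟨m, rfl⟩ := Nat.exists_eq_succ_of_ne_zero (Nat.one_le_iff_ne_zero.mp hn)
    rw [Nat.succ_sub_one]
    constructor
    · refine ⟨fun z => z * Complex.exp (G z), hmem, ?_⟩
      have h1 : coeff m.succ (fun z => z * Complex.exp (G z)) = (a α m : ℂ) := hc m
      rw [h1, Complex.norm_real, Real.norm_of_nonneg (hnn m)]
    · rintro x ⟨f, hf, rfl⟩
      have h1 := main_bound hα0 hα1 h0 hf m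
      rw [← hapos m] at h1
      exact le_of_mul_le_mul_left h1 (by positivity)
  · refine ⟨fun z => ((α⁻¹ : ℝ) : ℂ) * G z, hG.cmul _, by simp [hG0], ?_, ?_, ?_⟩
    · intro z hz
      have h1 : An (fun z => Complex.exp (((α⁻¹ : ℝ) : ℂ) * G z)) := (hG.cmul _).cexp
      have h2 := hasSum_tc h1 hz
      simp only [hY] at h2
      exact h2
    · have h1 : (fun z => z * Complex.exp (α * (((α⁻¹ : ℝ) : ℂ) * G z))) =
          fun z => z * Complex.exp (G z) := by
        funext z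
        congr 2
        push_cast
        field_simp
      show (fun z => z * Complex.exp (α * (((α⁻¹ : ℝ) : ℂ) * G z))) ∈ AlphaConvex α
      rw [h1]
      exact hmem
    · intro n hn
      obtain ⟨m, rfl⟩ := Nat.exists_eq_succ_of_ne_zero (Nat.one_le_iff_ne_zero.mp hn)
      have h1 : (fun z => z * Complex.exp (α * (((α⁻¹ : ℝ) : ℂ) * G z))) =
          fun z => z * Complex.exp (G z) := by
        funext z
        congr 2
        push_cast
        field_simp
      show coeff m.succ (fun z => z * Complex.exp (α * (((α⁻¹ : ℝ) : ℂ) * G z))) = _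
      rw [h1, Nat.succ_sub_one]
      exact hc m

end Pool.Agent.Results.MP_1f2de8_an.SharpCoefficientBounds
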